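import Mathlib

set_option autoImplicit false

/-!
# MP_3eb7f1_co: the minimum number of degree-close pairs

For all `n > k ≥ 1` every graph on `n` vertices has at least `f0 n k` pairs of vertices whose degrees
differ by less than `k`.
-/

namespace Pool.Agent.Results.MP_3eb7f1_co.LowerBound

open Finset

/-- degree of a vertex -/
noncomputable def deg {n : ℕ} (G : SimpleGraph (Fin n)) (v : Fin n) : ℕ := (G.neighborSet v).ncard

/-- `h k G`: the number of unordered pairs `{x, y}` of distinct vertices (listed with `x < y`) with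
`|deg x - deg y| < k` -/
noncomputable def h {n : ℕ} (k : ℕ) (G : SimpleGraph (Fin n)) : ℕ :=
  {p : Fin n × Fin n | p.1 < p.2 ∧ |(deg G p.1 : ℤ) - (deg G p.2 : ℤ)| < k}.ncard

/-- `⌈n / k⌉` -/
def q (n k : ℕ) : ℕ := (n + k - 1) / k

/-- `t = n - k (⌈n / k⌉ - 1)` -/
def t (n k : ℕ) : ℕ := n - k * (q n k - 1)

/-- the conjectured minimum -/
def f0 (n k : ℕ) : ℕ := (q n k - 2) * k.choose 2 + (k + 1).choose 2 + (t n k - 1).choose 2

section counting

variable {n : ℕ}

/-- closeness with respect to a function `d` -/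
def cl (d : Fin n → ℕ) (k : ℕ) (x y : Fin n) : Prop := d x < d y + k ∧ d y < d x + k

instance (d : Fin n → ℕ) (k : ℕ) (x y : Fin n) : Decidable (cl d k x y) := by
  unfold cl; infer_instance

/-- number of ordered close pairs in `S × T` -/
def oc (d : Fin n → ℕ) (k : ℕ) (S T : Finset (Fin n)) : ℤ :=
  ∑ x ∈ S, ∑ y ∈ T, if cl d k x y then (1 : ℤ) else 0

variable {d : Fin n → ℕ} {k : ℕ}

theorem cl_symm {x y : Fin n} : cl d k x y ↔ cl d k y x := by
  unfold cl; tauto

theorem oc_nonneg (S T : Finset (Fin n)) : 0 ≤ oc d k S T :=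
  Finset.sum_nonneg fun _ _ => Finset.sum_nonneg fun _ _ => by split_ifs <;> simp

theorem oc_comm (S T : Finset (Fin n)) : oc d k S T = oc d k T S := by
  unfold oc
  rw [Finset.sum_comm]
  refine Finset.sum_congr rfl fun x _ => Finset.sum_congr rfl fun y _ => ?_
  simp only [cl_symm (x := x) (y := y)]

theorem oc_union_left {S S' : Finset (Fin n)} (hd : Disjoint S S') (T : Finset (Fin n)) :
    oc d k (S ∪ S') T = oc d k S T + oc d k S' T := by
  unfold oc
  rw [Finset.sum_union hd]

theorem oc_union_right {S S' : Finset (Fin n)} (hd : Disjoint S S') (T : Finset (Fin n)) :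
    oc d k T (S ∪ S') = oc d k T S + oc d k T S' := by
  rw [oc_comm, oc_union_left hd, oc_comm S, oc_comm S']

theorem oc_union {S S' : Finset (Fin n)} (hd : Disjoint S S') :
    oc d k (S ∪ S') (S ∪ S') = oc d k S S + oc d k S' S' + 2 * oc d k S S' := by
  rw [oc_union_left hd, oc_union_right hd, oc_union_right hd, oc_comm S' S]
  ring

theorem oc_full {S T : Finset (Fin n)} (h : ∀ x ∈ S, ∀ y ∈ T, cl d k x y) :
    oc d k S T = (S.card : ℤ) * T.card := by
  unfold oc
  rw [Finset.sum_congr rfl fun x hx => Finset.sum_congr rfl fun y hy => if_pos (h x hx y hy)]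
  simp

theorem oc_mono_right {S T T' : Finset (Fin n)} (h : T' ⊆ T) : oc d k S T' ≤ oc d k S T := by
  unfold oc
  refine Finset.sum_le_sum fun x _ => Finset.sum_le_sum_of_subset_of_nonneg h fun _ _ _ => ?_
  split_ifs <;> simp

theorem oc_ge {S T T' : Finset (Fin n)} (hT : T' ⊆ T) (h : ∀ x ∈ S, ∀ y ∈ T', cl d k x y) :
    (S.card : ℤ) * T'.card ≤ oc d k S T := by
  rw [← oc_full h]
  exact oc_mono_right hT

/-- window counting -/
theorem win (p : ℕ) : ∀ (S : Finset (Fin n)) (β : ℕ), (∀ v ∈ S, β ≤ d v ∧ d v < β + p * k) →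
    (2 * (k : ℤ) + 1) * S.card - p * (k * (k + 1)) ≤ oc d k S S := by
  induction p with
  | zero =>
    intro S β hS
    have : S = ∅ := by
      rw [Finset.eq_empty_iff_forall_notMem]
      intro v hv
      have := hS v hv
      omega
    subst this
    simp [oc]
  | succ p ih =>
    intro S β hS
    set S0 := S.filter (fun v => d v < β + k) with hS0
    set S1 := S.filter (fun v => ¬ d v < β + k) with hS1
    have hun : S = S0 ∪ S1 := (Finset.filter_union_filter_not_eq _ S).symm
    have hdis : Disjoint S0 S1 := Finset.disjoint_filter_filter_not _ _ _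
    have h1 := ih S1 (β + k) (by
      intro v hv
      rw [hS1, Finset.mem_filter] at hv
      have := hS v hv.1
      have e : (p + 1) * k = p * k + k := by ring
      omega)
    have h0 : oc d k S0 S0 = (S0.card : ℤ) * S0.card := oc_full (by
      intro x hx y hy
      rw [hS0, Finset.mem_filter] at hx hy
      have := hS x hx.1
      have := hS y hy.1
      unfold cl
      omega)
    have hcard : S.card = S0.card + S1.card := by
      conv_lhs => rw [hun]
      exact Finset.card_union_of_disjoint hdis
    have hcl : oc d k S S = oc d k S0 S0 + oc d k S1 S1 + 2 * oc d k S0 S1 := by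
      conv_lhs => rw [hun]
      exact oc_union hdis
    have h2 := oc_nonneg (d := d) (k := k) S0 S1
    rw [hcl, h0, hcard]
    push_cast
    have key : 0 ≤ ((S0.card : ℤ) - k) * ((S0.card : ℤ) - k - 1) := by
      rcases le_or_gt (S0.card : ℤ) k with h | h
      · exact mul_nonneg_of_nonpos_of_nonpos (by linarith) (by linarith)
      · exact mul_nonneg (by linarith) (by linarith)
    nlinarith

theorem num1 {x y y' a b m kk Q' A1 A2 oM : ℤ} (hx : x + 1 ≤ a) (hy : y + 1 ≤ b) (hyy : y' ≤ y)
    (hk : b + a + 1 ≤ kk) (x0 : 0 ≤ x) (cX : b * x ≤ A1) (cY : a * y ≤ A2)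
    (wM : (2 * kk + 1) * m - Q' * (kk * (kk + 1)) ≤ oM) :
    2 * (a * b) + (2 * kk + 1) * (x + (y' + m)) - (1 + Q') * (kk * (kk + 1)) ≤
      (x * x + (y' * y' + oM)) + 2 * A1 + 2 * A2 := by
  have g1 : (a - x) + (b - y) + 1 ≤ kk - x - y' := by linarith
  have g2 : 0 ≤ a - x := by linarith
  have g3 : 0 ≤ b - y := by linarith
  have g4 : ((a - x) + (b - y) + 1) * ((a - x) + (b - y) + 1 + 1) ≤
      (kk - x - y') * (kk - x - y' + 1) :=
    mul_le_mul g1 (by linarith) (by linarith) (by linarith)
  have g5 : 0 ≤ (a - x) * (a - x) + (b - y) * (b - y) :=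
    add_nonneg (mul_self_nonneg _) (mul_self_nonneg _)
  have g6 : ((a - x) + (b - y) + 1) * ((a - x) + (b - y) + 1 + 1) =
    2 * ((a - x) * (b - y)) + ((a - x) * (a - x) + (b - y) * (b - y)) + 3 * (a - x) + 3 * (b - y) + 2
    := by ring
  have f2 : x * y' ≤ x * y := mul_le_mul_of_nonneg_left hyy x0
  have e : (kk - x - y') * (kk - x - y' + 1) =
    x * x + y' * y' + 2 * (x * y') - (2 * kk + 1) * (x + y') + kk * (kk + 1) := by ring
  have e' : 2 * ((a - x) * (b - y)) = 2 * (a * b) - 2 * (a * y) - 2 * (b * x) + 2 * (x * y) := by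
    ring
  have e3 : (2 * kk + 1) * (x + (y' + m)) = (2 * kk + 1) * (x + y') + (2 * kk + 1) * m := by ring
  have e4 : (1 + Q') * (kk * (kk + 1)) = kk * (kk + 1) + Q' * (kk * (kk + 1)) := by ring
  rw [e3, e4]
  linarith

theorem num2 {c tt k Q : ℤ} (h1 : c + 1 ≤ tt) (h2 : tt ≤ k) :
    (tt - 1) ^ 2 + (2 * k + 1) * (Q * k + 1) ≤ c ^ 2 + (2 * k + 1) * (Q * k + tt - c) := by
  have h3 : 0 ≤ (tt - 1 - c) * (2 * k + 1 - (tt - 1) - c) := mul_nonneg (by linarith) (by linarith)
  have e : c ^ 2 + (2 * k + 1) * (Q * k + tt - c) - ((tt - 1) ^ 2 + (2 * k + 1) * (Q * k + 1)) =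
    (tt - 1 - c) * (2 * k + 1 - (tt - 1) - c) := by ring
  linarith

theorem main_count {k Q tt j : ℕ} (d : Fin n → ℕ) (hQ : 1 ≤ Q)
    (httk : tt ≤ k) (hn : n = Q * k + tt) (hd : ∀ v, d v < n) (hj : j ≤ tt)
    (hc : (univ.filter (fun v => d v < j)).card + (univ.filter (fun v => Q * k + j ≤ d v)).card + 1
      ≤ tt) :
    ((tt : ℤ) - 1) ^ 2 + (2 * k + 1) * (Q * k + 1) - Q * (k * (k + 1)) ≤ oc d k univ univ := by
  classical
  set CB := univ.filter (fun v => d v < j) with hCB
  set CT := univ.filter (fun v => Q * k + j ≤ d v) with hCT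
  set V' := univ.filter (fun v => j ≤ d v ∧ d v < Q * k + j) with hV'
  have mB : ∀ v, v ∈ CB ↔ d v < j := fun v => by rw [hCB, Finset.mem_filter]; simp
  have mT : ∀ v, v ∈ CT ↔ Q * k + j ≤ d v := fun v => by rw [hCT, Finset.mem_filter]; simp
  have mV : ∀ v, v ∈ V' ↔ j ≤ d v ∧ d v < Q * k + j := fun v => by
    rw [hV', Finset.mem_filter]; simp
  have hQk : k ≤ Q * k := Nat.le_mul_of_pos_left k hQ
  have hdis1 : Disjoint CB V' := by
    rw [Finset.disjoint_left]; intro v h1 h2; rw [mB] at h1; rw [mV] at h2; omega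
  have hdis2 : Disjoint (CB ∪ V') CT := by
    rw [Finset.disjoint_left]; intro v h1 h2
    rw [Finset.mem_union, mB, mV] at h1; rw [mT] at h2; omega
  have hun : (univ : Finset (Fin n)) = (CB ∪ V') ∪ CT := by
    ext v
    simp only [Finset.mem_univ, Finset.mem_union, mB, mV, mT, true_iff]
    omega
  have hcard : n = CB.card + V'.card + CT.card := by
    have h1 : (univ : Finset (Fin n)).card = ((CB ∪ V') ∪ CT).card := by rw [← hun]
    rw [Finset.card_univ, Fintype.card_fin, Finset.card_union_of_disjoint hdis2,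
      Finset.card_union_of_disjoint hdis1] at h1
    exact h1
  have htot : oc d k univ univ = oc d k CB CB + oc d k V' V' + 2 * oc d k CB V' + oc d k CT CT
      + 2 * (oc d k CB CT + oc d k V' CT) := by
    rw [hun, oc_union hdis2, oc_union hdis1, oc_union_left hdis1]
  have hBB : oc d k CB CB = (CB.card : ℤ) * CB.card := oc_full (by
    intro x hx y hy
    rw [mB] at hx hy
    unfold cl; omega)
  have hTT : oc d k CT CT = (CT.card : ℤ) * CT.card := oc_full (by
    intro x hx y hy
    rw [mT] at hx hy
    have := hd x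
    have := hd y
    unfold cl; omega)
  have hBT := oc_nonneg (d := d) (k := k) CB CT
  have hVT : oc d k V' CT = oc d k CT V' := oc_comm _ _
  -- the key estimate for the middle part
  have key : 2 * ((CT.card : ℤ) * CB.card) + (2 * (k : ℤ) + 1) * V'.card - Q * (k * (k + 1)) ≤
      oc d k V' V' + 2 * oc d k CB V' + 2 * oc d k CT V' := by
    have base := win (d := d) (k := k) Q V' j (by
      intro v hv; rw [mV] at hv; omega)
    have n1 := oc_nonneg (d := d) (k := k) CB V'
    have n2 := oc_nonneg (d := d) (k := k) CT V'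
    by_cases hB0 : CB = ∅
    · rw [hB0] at n1 ⊢
      simp only [Finset.card_empty, Nat.cast_zero, mul_zero]
      linarith
    by_cases hT0 : CT = ∅
    · rw [hT0] at n2 ⊢
      simp only [Finset.card_empty, Nat.cast_zero, zero_mul, mul_zero]
      linarith
    obtain ⟨v0, hv0, hmin⟩ := Finset.exists_min_image CB d (Finset.nonempty_iff_ne_empty.2 hB0)
    obtain ⟨v1, hv1, hmax⟩ := Finset.exists_max_image CT d (Finset.nonempty_iff_ne_empty.2 hT0)
    have b0 := (mB v0).1 hv0
    have b1 := (mT v1).1 hv1
    have b2 := hd v1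
    set X := V'.filter (fun v => d v < d v0 + k) with hX
    set Y := V'.filter (fun v => d v1 < d v + k) with hY
    have mX : ∀ v, v ∈ X ↔ v ∈ V' ∧ d v < d v0 + k := fun v => by rw [hX, Finset.mem_filter]
    have mY : ∀ v, v ∈ Y ↔ v ∈ V' ∧ d v1 < d v + k := fun v => by rw [hY, Finset.mem_filter]
    have cX : (CB.card : ℤ) * X.card ≤ oc d k CB V' := oc_ge (Finset.filter_subset _ _) (by
      intro x hx y hy
      have := hmin x hx
      rw [mB] at hx
      rw [mX, mV] at hy
      unfold cl; omega)
    have cY : (CT.card : ℤ) * Y.card ≤ oc d k CT V' := oc_ge (Finset.filter_subset _ _) (by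
      intro x hx y hy
      have := hmax x hx
      rw [mT] at hx
      rw [mY, mV] at hy
      unfold cl; omega)
    by_cases hxa : CT.card ≤ X.card
    · have : (CT.card : ℤ) ≤ X.card := by exact_mod_cast hxa
      nlinarith [Nat.cast_nonneg (α := ℤ) CB.card]
    by_cases hyb : CB.card ≤ Y.card
    · have : (CB.card : ℤ) ≤ Y.card := by exact_mod_cast hyb
      nlinarith [Nat.cast_nonneg (α := ℤ) CT.card]
    push Not at hxa hyb
    -- shifted windows
    set Z := V'.filter (fun v => ¬ d v < d v0 + k) with hZ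
    set Y' := Z.filter (fun v => d v0 + Q * k ≤ d v) with hY'
    set M := Z.filter (fun v => ¬ d v0 + Q * k ≤ d v) with hM
    have hunV : V' = X ∪ Z := (Finset.filter_union_filter_not_eq _ V').symm
    have hdisV : Disjoint X Z := Finset.disjoint_filter_filter_not _ _ _
    have hunZ : Z = Y' ∪ M := (Finset.filter_union_filter_not_eq _ Z).symm
    have hdisZ : Disjoint Y' M := Finset.disjoint_filter_filter_not _ _ _
    have mZ : ∀ v, v ∈ Z ↔ v ∈ V' ∧ ¬ d v < d v0 + k := fun v => by rw [hZ, Finset.mem_filter]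
    have mY' : ∀ v, v ∈ Y' ↔ v ∈ Z ∧ d v0 + Q * k ≤ d v := fun v => by
      rw [hY', Finset.mem_filter]
    have mM : ∀ v, v ∈ M ↔ v ∈ Z ∧ ¬ d v0 + Q * k ≤ d v := fun v => by
      rw [hM, Finset.mem_filter]
    have hY'Y : Y'.card ≤ Y.card := by
      refine Finset.card_le_card ?_
      intro v hv
      rw [mY', mZ] at hv
      rw [mY]
      refine ⟨hv.1.1, ?_⟩
      omega
    obtain ⟨Q', rfl⟩ := Nat.exists_eq_add_of_le hQ
    have hQ' : (1 + Q') * k = k + Q' * k := by ring
    have wM := win (d := d) (k := k) Q' M (d v0 + k) (by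
      intro v hv
      rw [mM, mZ, mV] at hv
      omega)
    have cXX : oc d k X X = (X.card : ℤ) * X.card := oc_full (by
      intro x hx y hy
      rw [mX, mV] at hx hy
      unfold cl; omega)
    have cYY : oc d k Y' Y' = (Y'.card : ℤ) * Y'.card := oc_full (by
      intro x hx y hy
      rw [mY', mZ, mV] at hx hy
      unfold cl; omega)
    have e1 : oc d k V' V' = oc d k X X + oc d k Z Z + 2 * oc d k X Z := by
      conv_lhs => rw [hunV]
      exact oc_union hdisV
    have e2 : oc d k Z Z = oc d k Y' Y' + oc d k M M + 2 * oc d k Y' M := by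
      conv_lhs => rw [hunZ]
      exact oc_union hdisZ
    have n3 := oc_nonneg (d := d) (k := k) X Z
    have n4 := oc_nonneg (d := d) (k := k) Y' M
    have e3 : V'.card = X.card + (Y'.card + M.card) := by
      conv_lhs => rw [hunV]
      rw [Finset.card_union_of_disjoint hdisV]
      congr 1
      conv_lhs => rw [hunZ]
      exact Finset.card_union_of_disjoint hdisZ
    have hk1 : CB.card + CT.card + 1 ≤ k := hc.trans httk
    -- integers
    have e3' : (V'.card : ℤ) = X.card + (Y'.card + M.card) := by exact_mod_cast e3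
    have hxa' : (X.card : ℤ) + 1 ≤ CT.card := by exact_mod_cast hxa
    have hyb' : (Y.card : ℤ) + 1 ≤ CB.card := by exact_mod_cast hyb
    have hYY' : (Y'.card : ℤ) ≤ Y.card := by exact_mod_cast hY'Y
    have hk1' : (CB.card : ℤ) + CT.card + 1 ≤ k := by exact_mod_cast hk1
    have x0 : (0 : ℤ) ≤ X.card := Nat.cast_nonneg _
    have y0 : (0 : ℤ) ≤ Y'.card := Nat.cast_nonneg _
    have := num1 hxa' hyb' hYY' hk1' x0 cX cY wM
    rw [e1, e2, cXX, cYY, e3']
    push_cast
    linarith
  have hn' : (n : ℤ) = Q * k + tt := by exact_mod_cast hn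
  have hcard' : (n : ℤ) = CB.card + V'.card + CT.card := by exact_mod_cast hcard
  have hc' : (CB.card : ℤ) + CT.card + 1 ≤ tt := by exact_mod_cast hc
  have httk' : (tt : ℤ) ≤ k := by exact_mod_cast httk
  rw [htot, hBB, hTT, hVT]
  have b0 : (0 : ℤ) ≤ CB.card := Nat.cast_nonneg _
  have a0 : (0 : ℤ) ≤ CT.card := Nat.cast_nonneg _
  have hV : (V'.card : ℤ) = Q * k + tt - CB.card - CT.card := by linarith
  rw [hV] at key
  have fin := num2 (c := (CB.card : ℤ) + CT.card) (k := k) (Q := Q) hc' httk'
  have e : ((CB.card : ℤ) + CT.card) ^ 2 = (CB.card : ℤ) * CB.card + (CT.card : ℤ) * CT.card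
    + 2 * ((CT.card : ℤ) * CB.card) := by ring
  have e' : (2 * (k : ℤ) + 1) * (Q * k + tt - (CB.card + CT.card)) =
    (2 * (k : ℤ) + 1) * (Q * k + tt - CB.card - CT.card) := by ring
  rw [e, e'] at fin
  linarith

end counting

section graph

variable {n : ℕ}

theorem deg_eq (G : SimpleGraph (Fin n)) [DecidableRel G.Adj] (v : Fin n) :
    deg G v = (univ.filter (fun w => G.Adj v w)).card := by
  unfold deg
  rw [← Set.ncard_coe_finset]
  congr 1
  ext w
  simp [SimpleGraph.mem_neighborSet]

theorem deg_lt (G : SimpleGraph (Fin n)) (v : Fin n) : deg G v < n := by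
  classical
  rw [deg_eq]
  have h1 : univ.filter (fun w => G.Adj v w) ⊂ (univ : Finset (Fin n)) := by
    rw [Finset.ssubset_univ_iff]
    intro h
    have : v ∈ univ.filter (fun w => G.Adj v w) := by rw [h]; exact Finset.mem_univ v
    rw [Finset.mem_filter] at this
    exact G.loopless.irrefl v this.2
  have h2 := Finset.card_lt_card h1
  rwa [Finset.card_univ, Fintype.card_fin] at h2

theorem edge_count (G : SimpleGraph (Fin n)) (L U : Finset (Fin n)) (hLU : Disjoint L U) :
    L.card * U.card ≤ ∑ x ∈ L, deg G x + ∑ y ∈ U, (n - 1 - deg G y) := by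
  classical
  have h1 : L.card * U.card = ∑ x ∈ L, ∑ y ∈ U, (if G.Adj x y then 1 else 0) +
      ∑ y ∈ U, ∑ x ∈ L, (if G.Adj x y then 0 else 1) := by
    rw [Finset.sum_comm (s := U), ← Finset.sum_add_distrib]
    have : ∀ x ∈ L, (∑ y ∈ U, (if G.Adj x y then 1 else 0) + ∑ y ∈ U, (if G.Adj x y then 0 else 1))
        = U.card := by
      intro x _
      rw [← Finset.sum_add_distrib, Finset.card_eq_sum_ones]
      refine Finset.sum_congr rfl fun y _ => ?_
      split_ifs <;> rfl
    rw [Finset.sum_congr rfl this]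
    simp
  rw [h1]
  refine Nat.add_le_add (Finset.sum_le_sum fun x _ => ?_) (Finset.sum_le_sum fun y hy => ?_)
  · rw [deg_eq, ← Finset.card_filter]
    exact Finset.card_le_card (Finset.filter_subset_filter _ (Finset.subset_univ _))
  · have h2 : ∑ x ∈ L, (if G.Adj x y then 0 else 1) = (L.filter (fun x => ¬ G.Adj x y)).card := by
      rw [Finset.card_filter]
      refine Finset.sum_congr rfl fun x _ => ?_
      split_ifs <;> rfl
    rw [h2, deg_eq]
    have h3 : L.filter (fun x => ¬ G.Adj x y) ⊆
        (univ.erase y) \ (univ.filter (fun w => G.Adj y w)) := by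
      intro x hx
      rw [Finset.mem_filter] at hx
      rw [Finset.mem_sdiff, Finset.mem_erase, Finset.mem_filter]
      refine ⟨⟨?_, Finset.mem_univ _⟩, ?_⟩
      · rintro rfl
        exact Finset.disjoint_left.1 hLU hx.1 hy
      · intro h
        exact hx.2 h.2.symm
    have h4 := Finset.card_le_card h3
    rw [Finset.card_sdiff_of_subset, Finset.card_erase_of_mem (Finset.mem_univ _), Finset.card_univ,
      Fintype.card_fin] at h4
    · exact h4
    · intro x hx
      rw [Finset.mem_filter] at hx
      rw [Finset.mem_erase]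
      refine ⟨?_, Finset.mem_univ _⟩
      rintro rfl
      exact G.loopless.irrefl x hx.2

/-- Existence of a good cut `j`. -/
theorem exists_cut {Q k tt : ℕ} (G : SimpleGraph (Fin n)) (hQ : 1 ≤ Q) (ht : 1 ≤ tt)
    (httk : tt ≤ k) (hn : n = Q * k + tt) :
    ∃ j, j ≤ tt ∧ (univ.filter (fun v => deg G v < j)).card +
      (univ.filter (fun v => Q * k + j ≤ deg G v)).card + 1 ≤ tt := by
  classical
  have hQk : k ≤ Q * k := Nat.le_mul_of_pos_left k hQ
  set σ := Tuple.sort (deg G) with hσ
  have hmono : Monotone (deg G ∘ σ) := Tuple.monotone_sort _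
  by_contra hcon
  push Not at hcon
  -- for every i < tt, the i-th smallest and i-th of the top block are far apart
  have far : ∀ i (hi : i < tt), deg G (σ ⟨i, by omega⟩) + Q * k + 1 ≤
      deg G (σ ⟨Q * k + i, by omega⟩) + 1 := by
    intro i hi
    by_contra hlt
    push Not at hlt
    set A := deg G (σ ⟨i, by omega⟩) with hA
    set B := deg G (σ ⟨Q * k + i, by omega⟩) with hB
    have hlow : ∀ j, j ≤ A → (univ.filter (fun v => deg G v < j)).card ≤ i := by
      intro j hj
      have : univ.filter (fun v => deg G v < j) ⊆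
          (univ.filter (fun m : Fin n => m.1 < i)).image σ := by
        intro v hv
        rw [Finset.mem_filter] at hv
        rw [Finset.mem_image]
        refine ⟨σ.symm v, ?_, by simp⟩
        rw [Finset.mem_filter]
        refine ⟨Finset.mem_univ _, ?_⟩
        by_contra hge
        push Not at hge
        have : (⟨i, by omega⟩ : Fin n) ≤ σ.symm v := hge
        have := hmono this
        simp only [Function.comp_apply, Equiv.apply_symm_apply] at this
        omega
      refine (Finset.card_le_card this).trans (Finset.card_image_le.trans ?_)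
      have : (univ.filter (fun m : Fin n => m.1 < i)).card = i := by
        rw [Fin.card_filter_val_lt]
        omega
      omega
    have hhigh : ∀ j, B < Q * k + j →
        (univ.filter (fun v => Q * k + j ≤ deg G v)).card + 1 + i ≤ tt := by
      intro j hj
      have : univ.filter (fun v => Q * k + j ≤ deg G v) ⊆
          (univ.filter (fun m : Fin n => ¬ m.1 < Q * k + i + 1)).image σ := by
        intro v hv
        rw [Finset.mem_filter] at hv
        rw [Finset.mem_image]
        refine ⟨σ.symm v, ?_, by simp⟩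
        rw [Finset.mem_filter]
        refine ⟨Finset.mem_univ _, ?_⟩
        intro hge
        have : σ.symm v ≤ (⟨Q * k + i, by omega⟩ : Fin n) := by
          rw [Fin.le_def]
          show (σ.symm v).1 ≤ Q * k + i
          omega
        have := hmono this
        simp only [Function.comp_apply, Equiv.apply_symm_apply] at this
        omega
      have h1 := (Finset.card_le_card this).trans Finset.card_image_le
      have h2 : (univ.filter (fun m : Fin n => m.1 < Q * k + i + 1)).card +
          (univ.filter (fun m : Fin n => ¬ m.1 < Q * k + i + 1)).card = n := by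
        have := Finset.card_filter_add_card_filter_not (s := (univ : Finset (Fin n)))
          (fun m : Fin n => m.1 < Q * k + i + 1)
        rw [Finset.card_univ, Fintype.card_fin] at this
        exact this
      have h3 : (univ.filter (fun m : Fin n => m.1 < Q * k + i + 1)).card = Q * k + i + 1 := by
        rw [Fin.card_filter_val_lt]
        omega
      omega
    by_cases hAt : A ≤ tt
    · have h1 := hcon A hAt
      have h2 := hlow A le_rfl
      have h3 := hhigh A (by omega)
      omega
    · have h1 := hcon tt le_rfl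
      have h2 := hlow tt (by omega)
      have h3 : (univ.filter (fun v => Q * k + tt ≤ deg G v)).card = 0 := by
        rw [Finset.card_eq_zero, Finset.filter_eq_empty_iff]
        intro v _
        have := deg_lt G v
        omega
      omega
  -- contradiction by counting edges between the `tt` smallest and the `tt` largest
  let eL : Fin tt → Fin n := fun i => σ ⟨i.1, by have := i.2; omega⟩
  let eU : Fin tt → Fin n := fun i => σ ⟨Q * k + i.1, by have := i.2; omega⟩
  have iL : Function.Injective eL := by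
    intro a b hab
    have := σ.injective hab
    rw [Fin.mk.injEq] at this
    exact Fin.ext this
  have iU : Function.Injective eU := by
    intro a b hab
    have := σ.injective hab
    rw [Fin.mk.injEq] at this
    exact Fin.ext (by omega)
  set L := (univ : Finset (Fin tt)).image eL with hL
  set U := (univ : Finset (Fin tt)).image eU with hU
  have hdis : Disjoint L U := by
    rw [Finset.disjoint_left]
    intro v hv hv'
    rw [hL, Finset.mem_image] at hv
    rw [hU, Finset.mem_image] at hv'
    obtain ⟨a, -, rfl⟩ := hv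
    obtain ⟨b, -, hb⟩ := hv'
    have := σ.injective hb
    rw [Fin.mk.injEq] at this
    have := a.2
    omega
  have h1 := edge_count G L U hdis
  rw [hL, hU, Finset.card_image_of_injective _ iL, Finset.card_image_of_injective _ iU,
    Finset.sum_image (fun a _ b _ hab => iL hab), Finset.sum_image (fun a _ b _ hab => iU hab),
    ← Finset.sum_add_distrib, Finset.card_univ, Fintype.card_fin] at h1
  have h2 : ∑ i : Fin tt, (deg G (eL i) + (n - 1 - deg G (eU i))) ≤ ∑ i : Fin tt, (tt - 1) := by
    refine Finset.sum_le_sum fun i _ => ?_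
    have := far i.1 i.2
    have h5 := deg_lt G (eU i)
    change deg G (eL i) + Q * k + 1 ≤ deg G (eU i) + 1 at this
    omega
  rw [Finset.sum_const, Finset.card_univ, Fintype.card_fin, smul_eq_mul] at h2
  have h3 := h1.trans h2
  have h4 := Nat.le_of_mul_le_mul_left h3 (by omega)
  omega

theorem oc_eq {k : ℕ} (hk : 1 ≤ k) (G : SimpleGraph (Fin n)) :
    oc (deg G) k univ univ = n + 2 * (h k G : ℤ) := by
  classical
  have hh : (h k G : ℤ) = ∑ x : Fin n, ∑ y : Fin n,
      if x < y ∧ cl (deg G) k x y then (1 : ℤ) else 0 := by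
    unfold h
    have : {p : Fin n × Fin n | p.1 < p.2 ∧ |(deg G p.1 : ℤ) - (deg G p.2 : ℤ)| < k} =
        ((univ.filter (fun p : Fin n × Fin n => p.1 < p.2 ∧ cl (deg G) k p.1 p.2) :
          Finset (Fin n × Fin n)) : Set (Fin n × Fin n)) := by
      ext p
      simp only [Set.mem_ofPred_eq, Finset.coe_filter, Finset.mem_univ, true_and]
      refine and_congr_right fun _ => ?_
      unfold cl
      rw [abs_lt]
      omega
    rw [this, Set.ncard_coe_finset, Finset.card_filter]
    push_cast
    rw [← Finset.univ_product_univ, Finset.sum_product]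
  have hh' : (h k G : ℤ) = ∑ x : Fin n, ∑ y : Fin n,
      if y < x ∧ cl (deg G) k x y then (1 : ℤ) else 0 := by
    rw [hh, Finset.sum_comm]
    refine Finset.sum_congr rfl fun x _ => Finset.sum_congr rfl fun y _ => ?_
    simp only [cl_symm (x := y) (y := x)]
  have hd : (n : ℤ) = ∑ x : Fin n, ∑ y : Fin n, if x = y then (1 : ℤ) else 0 := by
    simp
  have : (n : ℤ) + 2 * (h k G : ℤ) = n + h k G + h k G := by ring
  rw [this]
  conv_rhs => rw [hd]
  conv_rhs => enter [1, 2]; rw [hh]
  conv_rhs => enter [2]; rw [hh']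
  unfold oc
  rw [← Finset.sum_add_distrib, ← Finset.sum_add_distrib]
  refine Finset.sum_congr rfl fun x _ => ?_
  rw [← Finset.sum_add_distrib, ← Finset.sum_add_distrib]
  refine Finset.sum_congr rfl fun y _ => ?_
  rcases lt_trichotomy x y with hxy | hxy | hxy
  · have h1 : ¬ x = y := ne_of_lt hxy
    have h2 : ¬ y < x := not_lt_of_gt hxy
    by_cases hc : cl (deg G) k x y <;> simp [h1, h2, hxy, hc]
  · subst hxy
    have hc : cl (deg G) k x x := by unfold cl; omega
    simp [hc]
  · have h1 : ¬ x = y := ne_of_gt hxy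
    have h2 : ¬ x < y := not_lt_of_gt hxy
    by_cases hc : cl (deg G) k x y <;> simp [h1, h2, hxy, hc]

end graph

theorem two_choose (m : ℕ) : 2 * (m.choose 2 : ℤ) = m * (m - 1) := by
  have h := Nat.triangle_succ (m - 1)
  rcases m with _ | m
  · simp
  · rw [Nat.choose_two_right]
    have h2 : 2 ∣ (m + 1) * (m + 1 - 1) := by
      rw [Nat.add_sub_cancel, mul_comm]
      exact (Nat.even_mul_succ_self m).two_dvd
    have h3 := Nat.mul_div_cancel' h2
    have h4 : (2 : ℤ) * (((m + 1) * (m + 1 - 1) / 2 : ℕ) : ℤ) = ((2 * ((m + 1) * (m + 1 - 1) / 2) : ℕ) : ℤ) := by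
      push_cast; ring
    rw [h4, h3]
    push_cast
    simp

/-- **Main theorem** (Q1): for all `n > k ≥ 1` every graph on `n` vertices has at least `f0 n k`
close pairs. -/
theorem result : ∀ n k : ℕ, 1 ≤ k → k < n → ∀ G : SimpleGraph (Fin n), f0 n k ≤ h k G := by
  intro n k hk hkn G
  -- `Q = ⌈n/k⌉ - 1`
  have hqdef : q n k = (n - 1) / k + 1 := by
    unfold q
    have : n + k - 1 = (n - 1) + k := by omega
    rw [this, Nat.add_div_right _ hk]
  set Q := (n - 1) / k with hQdef
  have hQ : 1 ≤ Q := by
    rw [hQdef]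
    exact (Nat.one_le_div_iff hk).2 (by omega)
  have hdm := Nat.div_add_mod (n - 1) k
  have hmod := Nat.mod_lt (n - 1) hk
  rw [← hQdef] at hdm
  have htdef : t n k = (n - 1) % k + 1 := by
    unfold t
    rw [hqdef, Nat.add_sub_cancel]
    omega
  set tt := (n - 1) % k + 1 with htt
  have hn : n = Q * k + tt := by
    rw [mul_comm]; omega
  have htk : tt ≤ k := by omega
  have ht1 : 1 ≤ tt := by omega
  obtain ⟨j, hj, hc⟩ := exists_cut G hQ ht1 htk hn
  have hmain := main_count (deg G) hQ htk hn (deg_lt G) hj hc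
  rw [oc_eq hk G] at hmain
  have hf : 2 * (f0 n k : ℤ) = (Q - 1) * (k * (k - 1)) + (k + 1) * k + (tt - 1) * (tt - 2) := by
    unfold f0
    rw [hqdef, htdef]
    have e1 : Q + 1 - 2 = Q - 1 := by omega
    rw [e1]
    push_cast [Nat.cast_sub hQ]
    have c1 := two_choose k
    have c2 := two_choose (k + 1)
    have c3 := two_choose (tt - 1)
    push_cast [Nat.cast_sub ht1] at c1 c2 c3
    linear_combination ((Q : ℤ) - 1) * c1 + c2 + c3
  have hn' : (n : ℤ) = Q * k + tt := by exact_mod_cast hn
  have : 2 * (f0 n k : ℤ) ≤ 2 * (h k G : ℤ) := by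
    rw [hf]
    rw [hn'] at hmain
    linarith
  have h2 : (f0 n k : ℤ) ≤ (h k G : ℤ) := by linarith
  exact_mod_cast h2

end Pool.Agent.Results.MP_3eb7f1_co.LowerBound
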